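import Mathlib
import Pool.Agent.W475.BG.Stm

set_option autoImplicit false

/-!
# The dual L-function satisfies the same axioms
-/

namespace Pool.Agent.W782.BG

open Complex MeasureTheory Filter Topology
open Pool.Agent.W475.BG
open scoped ComplexConjugate

theorem ofReal_cpow_conj (x : ℝ) (hx : 0 < x) (s : ℂ) :
    conj ((x : ℂ) ^ (conj s)) = (x : ℂ) ^ s := by
  rw [Complex.cpow_def_of_ne_zero (by exact_mod_cast hx.ne'),
    Complex.cpow_def_of_ne_zero (by exact_mod_cast hx.ne'), ← Complex.exp_conj, map_mul,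
    ← Complex.ofReal_log hx.le, Complex.conj_ofReal, Complex.conj_conj]

theorem gammaR_conj (s : ℂ) : conj (Gammaℝ (conj s)) = Gammaℝ s := by
  rw [Gammaℝ_def, Gammaℝ_def, map_mul]
  have h0 : conj (2 : ℂ) = 2 := Complex.conj_ofNat 2
  have h1 : -(conj s) / 2 = conj (-s / 2) := by
    rw [map_div₀, map_neg, h0]
  have h2 : (conj s) / 2 = conj (s / 2) := by
    rw [map_div₀, h0]
  rw [h1, h2, Gamma_conj, Complex.conj_conj, ofReal_cpow_conj _ Real.pi_pos]

theorem lseries_conj (a : ℕ → ℂ) (s : ℂ) :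
    conj (LSeries a (conj s)) = LSeries (fun n => conj (a n)) s := by
  unfold LSeries
  rw [Complex.conj_tsum]
  congr 1
  funext n
  rcases eq_or_ne n 0 with rfl | hn
  · simp
  · rw [LSeries.term_of_ne_zero hn, LSeries.term_of_ne_zero hn, map_div₀]
    congr 1
    have := ofReal_cpow_conj (n : ℝ) (by positivity) s
    simpa using this

theorem cnj (D : Dat) (hD : Ok D) : Ok (cj D) where
  hd := hD.hd
  hmu := hD.hmu
  hQ := hD.hQ
  hw := by simpa [cj] using hD.hw
  a1 := by simp [cj, hD.a1]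
  mult := by
    intro p n hp hn hpn
    simp [cj, hD.mult p n hp hn hpn]
  gr := by
    obtain ⟨A, hA, h⟩ := hD.gr
    exact ⟨A, hA, fun n hn => by simpa [cj] using h n hn⟩
  diff := by
    intro s
    have h := (hD.diff (conj s)).hasDerivAt.conj_conj
    rw [Complex.conj_conj] at h
    exact h.differentiableAt
  strip := by
    intro K
    obtain ⟨C, hC⟩ := hD.strip K
    exact ⟨C, fun s hs => by simpa [cj] using hC (conj s) (by simpa using hs)⟩
  ser := by
    obtain ⟨σ, h⟩ := hD.ser
    refine ⟨σ, fun s hs => ?_⟩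
    have h1 := h (conj s) (by simpa using hs)
    show conj (D.Lam (conj s)) = (D.Q : ℂ) ^ s * (∏ j, Gammaℝ (s + D.mu j)) *
      LSeries (fun n => conj (D.a n)) s
    rw [h1, map_mul, map_mul, map_prod, ofReal_cpow_conj _ hD.hQ, lseries_conj]
    congr 2
    refine Finset.prod_congr rfl fun j _ => ?_
    rw [← gammaR_conj (s + D.mu j)]
    simp
  fe := by
    intro s
    have h1 := hD.fe (conj s)
    rw [Complex.conj_conj] at h1
    show conj (D.Lam (conj (1 - s))) = conj D.w * conj (conj (D.Lam (conj (conj s))))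
    rw [map_sub, map_one, h1, map_mul, Complex.conj_conj, Complex.conj_conj, Complex.conj_conj]
  shrt := by
    obtain ⟨C, hC, h⟩ := hD.shrt
    exact ⟨C, hC, fun x h' h2 h3 h4 => by simpa [cj] using h x h' h2 h3 h4⟩
  prim := by
    intro α β hα hβ
    obtain ⟨c, T0, hc, hT, h⟩ := hD.prim α β hα hβ
    exact ⟨c, T0, hc, hT, fun T h2 => by simpa [cj] using h T h2⟩

end Pool.Agent.W782.BG
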